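import Pool.Agent.R535.AP.Final

/-!
# Numbers of progression-free sets
-/

set_option autoImplicit false

open Finset

namespace Pool.Agent.R535.AP

open Pool.Agent.H617R3.AP
open Pool.Agent.Y940.CT (Cov)

open Classical in
/-- the `k`-term progression-free subsets of `{1, ..., N}` -/
noncomputable def freeSets (k N : ℕ) : Finset (Finset ℕ) :=
  (Icc 1 N).powerset.filter (fun A => APFree k A)

theorem mem_freeSets {k N : ℕ} {A : Finset ℕ} : A ∈ freeSets k N ↔ A ⊆ Icc 1 N ∧ APFree k A := by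
  classical
  unfold freeSets
  rw [mem_filter, mem_powerset]

theorem pow_le_freeSets {k : ℕ} (hk : 1 ≤ k) (N : ℕ) : 2 ^ r k N ≤ (freeSets k N).card := by
  classical
  obtain ⟨A, hA, hA2, hA3⟩ := exists_opt hk N
  rw [← hA3, ← card_powerset]
  apply card_le_card
  intro B hB
  rw [mem_powerset] at hB
  exact mem_freeSets.2 ⟨hB.trans hA, hA2.mono hB⟩

theorem freeSets_le {k N : ℕ} {n γ : ℝ} (hn : 0 ≤ n)
    (h : Cov (fun I => I ⊆ Icc 1 N ∧ APFree k I) (Icc 1 N) n γ) :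
    ((freeSets k N).card : ℝ) ≤ n * 2 ^ γ := by
  classical
  obtain ⟨𝒞, h1, h2, h3⟩ := h
  have hsub : freeSets k N ⊆ 𝒞.biUnion fun C => C.powerset := by
    intro A hA
    obtain ⟨C, hC, hAC⟩ := h3 A (mem_freeSets.1 hA)
    exact mem_biUnion.2 ⟨C, hC, mem_powerset.2 hAC⟩
  calc ((freeSets k N).card : ℝ) ≤ ∑ C ∈ 𝒞, ((C.powerset.card : ℕ) : ℝ) := by
        exact_mod_cast (card_le_card hsub).trans card_biUnion_le
    _ ≤ ∑ _C ∈ 𝒞, (2 : ℝ) ^ γ := by
        apply sum_le_sum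
        intro C hC
        rw [card_powerset]
        push_cast
        rw [← Real.rpow_natCast]
        exact Real.rpow_le_rpow_of_exponent_le (by norm_num) (h2 C hC).2
    _ = 𝒞.card * 2 ^ γ := by rw [sum_const, nsmul_eq_mul]
    _ ≤ n * 2 ^ γ := by gcongr

theorem freeSets_sized_le {k N : ℕ} {n γ : ℝ} (hn : 0 ≤ n)
    (h : Cov (fun I => I ⊆ Icc 1 N ∧ APFree k I) (Icc 1 N) n γ) (m : ℕ) :
    (((freeSets k N).filter (fun A => A.card = m)).card : ℝ) ≤ n * (⌊γ⌋₊.choose m : ℕ) := by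
  classical
  obtain ⟨𝒞, h1, h2, h3⟩ := h
  have hsub : (freeSets k N).filter (fun A => A.card = m) ⊆
      𝒞.biUnion fun C => C.powersetCard m := by
    intro A hA
    rw [mem_filter] at hA
    obtain ⟨C, hC, hAC⟩ := h3 A (mem_freeSets.1 hA.1)
    exact mem_biUnion.2 ⟨C, hC, mem_powersetCard.2 ⟨hAC, hA.2⟩⟩
  calc (((freeSets k N).filter (fun A => A.card = m)).card : ℝ)
      ≤ ∑ C ∈ 𝒞, (((C.powersetCard m).card : ℕ) : ℝ) := by
        exact_mod_cast (card_le_card hsub).trans card_biUnion_le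
    _ ≤ ∑ _C ∈ 𝒞, ((⌊γ⌋₊.choose m : ℕ) : ℝ) := by
        apply sum_le_sum
        intro C hC
        rw [card_powersetCard]
        have : C.card ≤ ⌊γ⌋₊ := Nat.le_floor (h2 C hC).2
        exact_mod_cast Nat.choose_le_choose m this
    _ = 𝒞.card * (⌊γ⌋₊.choose m : ℕ) := by rw [sum_const, nsmul_eq_mul]
    _ ≤ n * (⌊γ⌋₊.choose m : ℕ) := by gcongr

/-- the probability that a random subset of `U` (each element is chosen independently with
probability `p`) has the property `Q` -/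
noncomputable def randProb (U : Finset ℕ) (p : ℝ) (Q : Finset ℕ → Prop) : ℝ := by
  classical
  exact ∑ S ∈ U.powerset.filter (fun S => Q S), p ^ S.card * (1 - p) ^ (U.card - S.card)

open Classical in
theorem randProb_eq (U : Finset ℕ) (p : ℝ) (Q : Finset ℕ → Prop) : randProb U p Q =
    ∑ S ∈ U.powerset.filter (fun S => Q S), p ^ S.card * (1 - p) ^ (U.card - S.card) := rfl

theorem randProb_le {U : Finset ℕ} {p : ℝ} {Q : Finset ℕ → Prop} (hp0 : 0 ≤ p) (hp1 : p ≤ 1)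
    (T : Finset (Finset ℕ)) (hT : ∀ S, S ⊆ U → Q S → S ∈ T) :
    randProb U p Q ≤ ∑ S ∈ T, p ^ S.card * (1 - p) ^ (U.card - S.card) := by
  classical
  rw [randProb_eq]
  apply sum_le_sum_of_subset_of_nonneg
  · intro S hS
    rw [mem_filter, mem_powerset] at hS
    exact hT S hS.1 hS.2
  · intro S _ _
    have : 0 ≤ 1 - p := by linarith
    positivity

/-- exponential moment -/
theorem moment (U C : Finset ℕ) (hC : C ⊆ U) (p y : ℝ) :
    ∑ S ∈ U.powerset, p ^ S.card * (1 - p) ^ (U.card - S.card) * y ^ (S ∩ C).card =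
      (1 + p * (y - 1)) ^ C.card := by
  classical
  have h1 := Finset.prod_add (fun i : ℕ => if i ∈ C then p * y else p) (fun _ => 1 - p) U
  have h2 : ∀ S ∈ U.powerset, (∏ i ∈ S, if i ∈ C then p * y else p) * ∏ _i ∈ U \ S, (1 - p) =
      p ^ S.card * (1 - p) ^ (U.card - S.card) * y ^ (S ∩ C).card := by
    intro S hS
    rw [mem_powerset] at hS
    rw [prod_const, card_sdiff_of_subset hS]
    have h3 : (∏ i ∈ S, if i ∈ C then p * y else p) = p ^ S.card * y ^ (S ∩ C).card := by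
      have h4 : ∀ i ∈ S, (if i ∈ C then p * y else p) = p * (if i ∈ C then y else 1) := by
        intro i _
        split_ifs <;> ring
      rw [prod_congr rfl h4, prod_mul_distrib, prod_const, ← prod_filter, prod_const,
        filter_mem_eq_inter]
    rw [h3]
    ring
  rw [sum_congr rfl h2] at h1
  rw [← h1]
  have h5 : ∀ i ∈ U, ((if i ∈ C then p * y else p) + (1 - p)) =
      if i ∈ C then (1 + p * (y - 1)) else 1 := by
    intro i _
    split_ifs <;> ring
  rw [prod_congr rfl h5, ← prod_filter, prod_const, filter_mem_eq_inter,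
    inter_eq_right.2 hC]

/-- large deviations for the intersection with a fixed set -/
theorem chernoff {U C : Finset ℕ} (hC : C ⊆ U) {p ε R : ℝ} (hp0 : 0 ≤ p) (hp1 : p ≤ 1)
    (hε : 0 < ε) (hε1 : ε ≤ 1 / 2) (hR : 0 ≤ R) (hCR : (C.card : ℝ) ≤ (1 + ε) * R) :
    randProb U p (fun S => (1 + 3 * ε) * (p * R) ≤ ((S ∩ C).card : ℝ)) ≤
      Real.exp (-(ε ^ 2 / 2 * (p * R))) := by
  classical
  rw [randProb_eq]
  have h1 : ∀ S ∈ U.powerset.filter (fun S => (1 + 3 * ε) * (p * R) ≤ ((S ∩ C).card : ℝ)),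
      p ^ S.card * (1 - p) ^ (U.card - S.card) ≤ Real.exp (-(ε * ((1 + 3 * ε) * (p * R)))) *
        (p ^ S.card * (1 - p) ^ (U.card - S.card) * (Real.exp ε) ^ (S ∩ C).card) := by
    intro S hS
    rw [mem_filter] at hS
    have h2 : 1 ≤ Real.exp (-(ε * ((1 + 3 * ε) * (p * R)))) * (Real.exp ε) ^ (S ∩ C).card := by
      rw [← Real.exp_nat_mul, ← Real.exp_add]
      apply Real.one_le_exp
      have := hS.2
      nlinarith
    have h3 : 0 ≤ p ^ S.card * (1 - p) ^ (U.card - S.card) := by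
      have : 0 ≤ 1 - p := by linarith
      positivity
    calc p ^ S.card * (1 - p) ^ (U.card - S.card) ≤ (p ^ S.card * (1 - p) ^ (U.card - S.card)) *
          (Real.exp (-(ε * ((1 + 3 * ε) * (p * R)))) * (Real.exp ε) ^ (S ∩ C).card) :=
          le_mul_of_one_le_right h3 h2
      _ = _ := by ring
  refine (sum_le_sum h1).trans ?_
  rw [← mul_sum]
  have h4 : ∑ S ∈ U.powerset.filter (fun S => (1 + 3 * ε) * (p * R) ≤ ((S ∩ C).card : ℝ)),
      p ^ S.card * (1 - p) ^ (U.card - S.card) * (Real.exp ε) ^ (S ∩ C).card ≤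
      (1 + p * (Real.exp ε - 1)) ^ C.card := by
    rw [← moment U C hC p (Real.exp ε)]
    apply sum_le_sum_of_subset_of_nonneg (filter_subset _ _)
    intro S _ _
    have : 0 ≤ 1 - p := by linarith
    positivity
  have hexp : Real.exp ε - 1 ≤ ε + ε ^ 2 := by
    have h5 := Real.abs_exp_sub_one_sub_id_le (x := ε) (by rw [abs_of_pos hε]; linarith)
    have h6 := (abs_le.1 h5).2
    linarith
  have hexp0 : 0 ≤ Real.exp ε - 1 := by
    have := Real.add_one_le_exp ε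
    linarith
  have h5 : (1 + p * (Real.exp ε - 1)) ^ C.card ≤
      Real.exp ((1 + ε) * R * (p * (ε + ε ^ 2))) := by
    calc (1 + p * (Real.exp ε - 1)) ^ C.card ≤ (Real.exp (p * (ε + ε ^ 2))) ^ C.card := by
          apply pow_le_pow_left₀ (by positivity)
          have h6 := Real.add_one_le_exp (p * (ε + ε ^ 2))
          nlinarith
      _ = Real.exp (C.card * (p * (ε + ε ^ 2))) := by rw [← Real.exp_nat_mul]
      _ ≤ _ := by
          apply Real.exp_le_exp.2
          gcongr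
  calc Real.exp (-(ε * ((1 + 3 * ε) * (p * R)))) *
        ∑ S ∈ U.powerset.filter (fun S => (1 + 3 * ε) * (p * R) ≤ ((S ∩ C).card : ℝ)),
          p ^ S.card * (1 - p) ^ (U.card - S.card) * (Real.exp ε) ^ (S ∩ C).card
      ≤ Real.exp (-(ε * ((1 + 3 * ε) * (p * R)))) *
        Real.exp ((1 + ε) * R * (p * (ε + ε ^ 2))) := by
        gcongr
        exact h4.trans h5
    _ = Real.exp (-(ε * ((1 + 3 * ε) * (p * R))) + (1 + ε) * R * (p * (ε + ε ^ 2))) := by
        rw [← Real.exp_add]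
    _ ≤ Real.exp (-(ε ^ 2 / 2 * (p * R))) := by
        apply Real.exp_le_exp.2
        have hpR : 0 ≤ p * R := by positivity
        have e1 : -(ε * ((1 + 3 * ε) * (p * R))) + (1 + ε) * R * (p * (ε + ε ^ 2)) =
            (-(ε ^ 2) + ε ^ 3) * (p * R) := by ring
        rw [e1]
        have h6 : -(ε ^ 2) + ε ^ 3 ≤ -(ε ^ 2 / 2) := by nlinarith [sq_nonneg ε]
        nlinarith

theorem sum_biUnion_le' (𝒞 : Finset (Finset ℕ)) (t : Finset ℕ → Finset (Finset ℕ))
    (g : Finset ℕ → ℝ) (hg : ∀ S, 0 ≤ g S) :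
    ∑ S ∈ 𝒞.biUnion t, g S ≤ ∑ C ∈ 𝒞, ∑ S ∈ t C, g S := by
  classical
  induction 𝒞 using Finset.induction_on with
  | empty => simp
  | insert C 𝒞 hC ih =>
    rw [biUnion_insert, sum_insert hC]
    have h1 : ∑ S ∈ t C ∪ 𝒞.biUnion t, g S ≤ ∑ S ∈ t C, g S + ∑ S ∈ 𝒞.biUnion t, g S := by
      rw [← sum_union_inter]
      have : 0 ≤ ∑ S ∈ t C ∩ 𝒞.biUnion t, g S := sum_nonneg fun S _ => hg S
      linarith
    linarith

/-- the union bound over the containers -/
theorem random {k N : ℕ} {n ε R p : ℝ} (hp0 : 0 ≤ p) (hp1 : p ≤ 1)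
    (hε : 0 < ε) (hε1 : ε ≤ 1 / 2) (hR : 0 ≤ R)
    (h : Cov (fun I => I ⊆ Icc 1 N ∧ APFree k I) (Icc 1 N) n ((1 + ε) * R)) :
    randProb (Icc 1 N) p (fun S => ∃ A ⊆ S, APFree k A ∧ (1 + 3 * ε) * (p * R) ≤ (A.card : ℝ)) ≤
      n * Real.exp (-(ε ^ 2 / 2 * (p * R))) := by
  classical
  obtain ⟨𝒞, h1, h2, h3⟩ := h
  have hnn : ∀ S : Finset ℕ, 0 ≤ p ^ S.card * (1 - p) ^ ((Icc 1 N).card - S.card) := by
    intro S
    have : 0 ≤ 1 - p := by linarith
    positivity
  have hT := randProb_le (U := Icc 1 N)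
    (Q := fun S => ∃ A ⊆ S, APFree k A ∧ (1 + 3 * ε) * (p * R) ≤ (A.card : ℝ)) hp0 hp1
    (𝒞.biUnion fun C => (Icc 1 N).powerset.filter
        (fun S => (1 + 3 * ε) * (p * R) ≤ ((S ∩ C).card : ℝ))) (by
      rintro S hSN ⟨A, hAS, hA, hAc⟩
      obtain ⟨C, hC, hAC⟩ := h3 A ⟨hAS.trans hSN, hA⟩
      rw [mem_biUnion]
      refine ⟨C, hC, mem_filter.2 ⟨mem_powerset.2 hSN, hAc.trans ?_⟩⟩
      exact_mod_cast card_le_card (subset_inter hAS hAC))
  refine hT.trans ?_
  calc ∑ S ∈ 𝒞.biUnion fun C => (Icc 1 N).powerset.filter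
        (fun S => (1 + 3 * ε) * (p * R) ≤ ((S ∩ C).card : ℝ)),
        p ^ S.card * (1 - p) ^ ((Icc 1 N).card - S.card)
      ≤ ∑ C ∈ 𝒞, ∑ S ∈ (Icc 1 N).powerset.filter
        (fun S => (1 + 3 * ε) * (p * R) ≤ ((S ∩ C).card : ℝ)),
        p ^ S.card * (1 - p) ^ ((Icc 1 N).card - S.card) :=
        sum_biUnion_le' _ _ _ (fun S => hnn S)
    _ ≤ ∑ _C ∈ 𝒞, Real.exp (-(ε ^ 2 / 2 * (p * R))) := by
        apply sum_le_sum
        intro C hC
        have := chernoff (h2 C hC).1 hp0 hp1 hε hε1 hR (h2 C hC).2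
        rwa [randProb_eq] at this
    _ = 𝒞.card * Real.exp (-(ε ^ 2 / 2 * (p * R))) := by rw [sum_const, nsmul_eq_mul]
    _ ≤ _ := by gcongr

end Pool.Agent.R535.AP
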