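import Pool.Agent.R535.AP.Reg

/-!
# Containers at the threshold
-/

set_option autoImplicit false

open Finset

namespace Pool.Agent.R535.AP

open Pool.Agent.H617R3.AP Pool.Agent.R444.Supersat
open Pool.Agent.Y940.CT (Cov)

theorem qr_le {k N q : ℕ} {ρ β : ℝ} (hN : 1 ≤ N) (hq : 1 ≤ q) (hk : 3 ≤ k)
    (hρ : 0 ≤ ρ) (hqN : (q : ℝ) ≤ β * N) (hd : d k (N / q + 1) ≤ ρ * d k N) :
    (q : ℝ) * r k (N / q + 1) ≤ (1 + β) * ρ * r k N := by
  have hN0 : (0 : ℝ) < N := by exact_mod_cast hN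
  have hq0 : (0 : ℝ) < q := by exact_mod_cast hq
  obtain ⟨M, hM⟩ : ∃ M : ℕ, M = N / q + 1 := ⟨_, rfl⟩
  rw [← hM] at hd ⊢
  have hM0 : (0 : ℝ) < M := by rw [hM]; positivity
  have hM2 : (M : ℝ) ≤ (N : ℝ) / q + 1 := by
    rw [hM]
    push_cast
    have : ((N / q : ℕ) : ℝ) ≤ (N : ℝ) / q := Nat.cast_div_le
    linarith
  have h1 : (q : ℝ) * M ≤ (1 + β) * N := by
    calc (q : ℝ) * M ≤ q * ((N : ℝ) / q + 1) := by gcongr
      _ = N + q := by field_simp
      _ ≤ (1 + β) * N := by linarith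
  have hdM : (r k M : ℝ) = M * d k M := by
    unfold d
    field_simp
  have hdN : (r k N : ℝ) = N * d k N := by
    unfold d
    field_simp
  have hdN0 := (d_pos hk hN).le
  rw [hdM, hdN]
  calc (q : ℝ) * (M * d k M) = (q * M) * d k M := by ring
    _ ≤ (q * M) * (ρ * d k N) := by gcongr
    _ ≤ ((1 + β) * N) * (ρ * d k N) := by gcongr
    _ = _ := by ring

open Classical in
theorem sum_union_le (E F G : Set ℕ) (hG : G = E ∪ F) (x : ℕ) :
    ∑ N ∈ (Icc 1 x).filter (fun N => N ∈ G), (1 : ℝ) / N ≤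
      ∑ N ∈ (Icc 1 x).filter (fun N => N ∈ E), (1 : ℝ) / N +
        ∑ N ∈ (Icc 1 x).filter (fun N => N ∈ F), (1 : ℝ) / N := by
  have h3 : (Icc 1 x).filter (fun N => N ∈ G) =
      (Icc 1 x).filter (fun N => N ∈ E) ∪ (Icc 1 x).filter (fun N => N ∈ F) := by
    ext n
    simp only [mem_filter, mem_union, hG, Set.mem_union]
    tauto
  rw [h3, ← sum_union_inter]
  have h4 : 0 ≤ ∑ N ∈ (Icc 1 x).filter (fun N => N ∈ E) ∩ (Icc 1 x).filter (fun N => N ∈ F),
      (1 : ℝ) / N := sum_nonneg fun n _ => by positivity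
  linarith

open Classical in
theorem sum_small (N₀ : ℕ) (G : Set ℕ) (hG : G = {N | N < N₀}) (x : ℕ) :
    ∑ N ∈ (Icc 1 x).filter (fun N => N ∈ G), (1 : ℝ) / N ≤ N₀ := by
  calc ∑ N ∈ (Icc 1 x).filter (fun N => N ∈ G), (1 : ℝ) / N
      ≤ ∑ N ∈ (Icc 1 x).filter (fun N => N ∈ G), (1 : ℝ) := by
        apply sum_le_sum
        intro n hn
        rw [mem_filter, mem_Icc] at hn
        have : (1 : ℝ) ≤ n := by exact_mod_cast hn.1.1
        rw [div_le_one (by linarith)]
        exact this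
    _ = (((Icc 1 x).filter (fun N => N ∈ G)).card : ℝ) := by simp
    _ ≤ (((range N₀).card : ℕ) : ℝ) := by
        exact_mod_cast card_le_card fun n hn => mem_range.mpr (by
          have := (mem_filter.mp hn).2
          rw [hG] at this
          exact this)
    _ = N₀ := by simp

/-- the number of steps -/
theorem steps {δ y : ℝ} (hδ0 : 0 < δ) (hδ1 : δ ≤ 1) {J : ℕ} (hJ : y / δ ≤ J) :
    (1 - δ) ^ J ≤ Real.exp (-y) := by
  have h1 : 1 - δ ≤ Real.exp (-δ) := by
    have := Real.add_one_le_exp (-δ)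
    linarith
  calc (1 - δ) ^ J ≤ (Real.exp (-δ)) ^ J := pow_le_pow_left₀ (by linarith) h1 _
    _ = Real.exp (J * (-δ)) := by rw [← Real.exp_nat_mul]
    _ ≤ Real.exp (-y) := by
        apply Real.exp_le_exp.2
        rw [div_le_iff₀ hδ0] at hJ
        linarith

open Classical in
theorem main {k : ℕ} (hk : 3 ≤ k) {ε : ℝ} (h0 : 0 < ε) (h1 : ε ≤ 1) :
    ∃ (c C : ℝ) (E : Set ℕ), 0 < c ∧
      (∀ x : ℕ, 1 ≤ x → ∑ N ∈ (Icc 1 x).filter (fun N => N ∈ E), (1 : ℝ) / N ≤
        ε * Real.log x + C) ∧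
      ∀ N : ℕ, 1 ≤ N → N ∉ E → Cov (fun I => I ⊆ Icc 1 N ∧ APFree k I) (Icc 1 N)
        (Real.exp (Real.exp (-(c * √(Real.log N))) * r k N)) ((1 + ε) * r k N) := by
  have hk0 : (3 : ℝ) ≤ k := by exact_mod_cast hk
  obtain ⟨δ₁, t₁, hδ₁0, hδ₁1, ht₁0, ht₁1, hstep₁⟩ := step (k := k) (by omega) (κ := 1 / 2)
    (by norm_num) (by norm_num)
  obtain ⟨δ₂, t₂, hδ₂0, hδ₂1, ht₂0, ht₂1, hstep₂⟩ := step (k := k) (by omega) (κ := ε / 4)
    (by positivity) (by linarith)
  obtain ⟨c₂, C₂, E₂, hc₂, hE₂, hR⟩ := part_three hk (ε := ε / 8) (by positivity) (by linarith)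
  obtain ⟨c₁, hc₁⟩ : ∃ c₁ : ℝ, c₁ = 6 * k := ⟨_, rfl⟩
  have hc₁0 : 0 < c₁ := by rw [hc₁]; positivity
  obtain ⟨Λ, C₁, E₁, hΛ1, hE₁, hW⟩ := window hk hc₁0 (ε := ε / 2) (by positivity)
  obtain ⟨sa, hsa⟩ := primes_avail c₁ (6 * (k - 1)) (by nlinarith) (by rw [hc₁]; linarith)
  obtain ⟨sb, hsb⟩ := primes_avail c₂ (c₂ / 2) (by positivity) (by linarith)
  obtain ⟨a, ha⟩ : ∃ a : ℝ, a = c₂ / (2 * k) := ⟨_, rfl⟩
  have ha0 : 0 < a := by rw [ha]; positivity
  obtain ⟨J₂, hJ₂⟩ := exists_nat_ge (Real.log (4 * Λ) / δ₂)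
  obtain ⟨sc, hsc⟩ := poly_exp (36 * k * (4 / δ₁ + 2)) 1 2 (by norm_num)
  obtain ⟨sd, hsd⟩ := poly_exp (24 * J₂ * k * Λ * a) (a / 2) 1 (by positivity)
  obtain ⟨c, hc⟩ : ∃ c : ℝ, c = min (a / 2) 1 := ⟨_, rfl⟩
  have hc0 : 0 < c := by rw [hc]; exact lt_min (by positivity) one_pos
  have hca : c ≤ a / 2 := by rw [hc]; exact min_le_left _ _
  have hc1 : c ≤ 1 := by rw [hc]; exact min_le_right _ _
  obtain ⟨s₀, hs₀⟩ : ∃ s₀ : ℝ, sa ≤ s₀ ∧ sb ≤ s₀ ∧ sc ≤ s₀ ∧ sd ≤ s₀ ∧ 10 + a ≤ s₀ ∧ c₁ ≤ s₀ ∧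
      c₂ + |Real.log (8 / ε)| ≤ s₀ ∧ |Real.log t₁| ≤ s₀ ∧ |Real.log t₂| / a ≤ s₀ ∧
      1 / c₂ ≤ s₀ := by
    have hne : ({sa, sb, sc, sd, 10 + a, c₁, c₂ + |Real.log (8 / ε)|, |Real.log t₁|,
      |Real.log t₂| / a, 1 / c₂} : Finset ℝ).Nonempty := ⟨sa, by simp⟩
    refine ⟨Finset.max' _ hne, ?_⟩
    refine ⟨?_, ?_, ?_, ?_, ?_, ?_, ?_, ?_, ?_, ?_⟩ <;>
      exact Finset.le_max' _ _ (by simp)
  obtain ⟨N₀, hN₀⟩ := exists_nat_gt (Real.exp (s₀ ^ 2))
  obtain ⟨F₀, hF₀⟩ : ∃ F₀ : Set ℕ, F₀ = {N | N < N₀} := ⟨_, rfl⟩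
  obtain ⟨F₁, hF₁⟩ : ∃ F₁ : Set ℕ, F₁ = E₁ ∪ E₂ := ⟨_, rfl⟩
  obtain ⟨E, hE⟩ : ∃ E : Set ℕ, E = F₁ ∪ F₀ := ⟨_, rfl⟩
  refine ⟨c, C₁ + C₂ + N₀, E, hc0, fun x hx => ?_, fun N hN hNE => ?_⟩
  · have h2 := sum_union_le F₁ F₀ E hE x
    have h3 := sum_union_le E₁ E₂ F₁ hF₁ x
    have h4 := sum_small N₀ F₀ hF₀ x
    have h5 := hE₁ x hx
    have h6 := hE₂ x hx
    have h7 : 0 ≤ Real.log x := Real.log_nonneg (by exact_mod_cast hx)
    have h8 : ε / 2 * Real.log x + ε / 8 * Real.log x ≤ ε * Real.log x := by nlinarith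
    linarith
  rw [hE, hF₁, hF₀, Set.mem_union, Set.mem_union, not_or, not_or] at hNE
  obtain ⟨⟨hNE₁, hNE₂⟩, hNN⟩ := hNE
  have hNN₀ : N₀ ≤ N := by simpa using hNN
  have hNR : (1 : ℝ) ≤ N := by exact_mod_cast hN
  have hNpos : (0 : ℝ) < N := by linarith
  obtain ⟨s, hs⟩ : ∃ s : ℝ, s = √(Real.log N) := ⟨_, rfl⟩
  have hlog0 : 0 ≤ Real.log N := Real.log_nonneg hNR
  have hs2 : s ^ 2 = Real.log N := by rw [hs, Real.sq_sqrt hlog0]
  have hexpN : Real.exp (s ^ 2) = N := by rw [hs2, Real.exp_log hNpos]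
  obtain ⟨hsa', hsb', hsc', hsd', hs10, hsc₁, hsε, hst₁, hst₂, hsc₂⟩ := hs₀
  have hs₀0 : 0 ≤ s₀ := by linarith
  have hss : s₀ ≤ s := by
    rw [hs]
    apply Real.le_sqrt_of_sq_le
    rw [Real.le_log_iff_exp_le hNpos]
    have : (N₀ : ℝ) ≤ N := by exact_mod_cast hNN₀
    linarith
  have hs1 : 10 + a ≤ s := hs10.trans hss
  have hspos : 0 < s := by linarith
  have hr := r_pos hk hN
  have hbeh : Real.exp (-(4 * s)) * N ≤ r k N := by
    have := behrend hk N
    rw [← hs, mul_comm] at this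
    have e1 : -4 * s = -(4 * s) := by ring
    rwa [e1] at this
  -- the logarithm
  have hlog2 : ((Nat.log 2 N : ℕ) : ℝ) ≤ 3 / 2 * s ^ 2 := by
    rw [hs2]
    exact natlog_le hN
  -- window
  have hM1 : ∀ q : ℕ, 1 ≤ q → ∀ c' : ℝ, (q : ℝ) ≤ Real.exp (c' * s) →
      (N : ℝ) * Real.exp (-(c' * √(Real.log N))) ≤ ((N / q + 1 : ℕ) : ℝ) := by
    intro q hq c' hqc
    have hq0 : (0 : ℝ) < q := by exact_mod_cast hq
    rw [← hs, Real.exp_neg]
    have h2 : (N : ℝ) / q < ((N / q + 1 : ℕ) : ℝ) := by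
      push_cast
      rw [div_lt_iff₀ hq0]
      have : N < (N / q + 1) * q := by
        have := Nat.div_add_mod N q
        have := Nat.mod_lt N (by omega : 0 < q)
        nlinarith
      exact_mod_cast this
    calc (N : ℝ) * (Real.exp (c' * s))⁻¹ ≤ N * (q : ℝ)⁻¹ := by gcongr
      _ = N / q := by rw [div_eq_mul_inv]
      _ ≤ _ := h2.le
  -- the two bounds
  have hq₁ : ∀ q : ℕ, 1 ≤ q → (q : ℝ) ≤ Real.exp (c₁ * s) →
      (q : ℝ) * r k (N / q + 1) ≤ 2 * Λ * r k N := by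
    intro q hq hqc
    have h2 := hW N hN hNE₁ (N / q + 1) (hM1 q hq c₁ hqc)
    have h3 : (q : ℝ) ≤ 1 * N := by
      rw [one_mul, ← hexpN]
      refine hqc.trans (Real.exp_le_exp.2 ?_)
      nlinarith
    have h4 := qr_le hN hq hk (by linarith) h3 h2
    linarith
  have hq₂ : ∀ q : ℕ, 1 ≤ q → (q : ℝ) ≤ Real.exp (c₂ * s) →
      (q : ℝ) * r k (N / q + 1) ≤ (1 + ε / 2) * r k N := by
    intro q hq hqc
    have hlow := hM1 q hq c₂ hqc
    have hq1 : (1 : ℝ) ≤ q := by exact_mod_cast hq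
    have h3 : (q : ℝ) ≤ ε / 8 * N := by
      have h6 : Real.exp (c₂ * s) * (8 / ε) ≤ N := by
        have h7 : Real.exp (c₂ * s + Real.log (8 / ε)) ≤ Real.exp (s ^ 2) := by
          apply Real.exp_le_exp.mpr
          have h8 := le_abs_self (Real.log (8 / ε))
          have h9 := abs_nonneg (Real.log (8 / ε))
          have h10 : c₂ + |Real.log (8 / ε)| ≤ s := hsε.trans hss
          nlinarith
        rwa [Real.exp_add, Real.exp_log (by positivity), hexpN] at h7
      calc (q : ℝ) ≤ Real.exp (c₂ * s) := hqc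
        _ = ε / 8 * (Real.exp (c₂ * s) * (8 / ε)) := by field_simp
        _ ≤ ε / 8 * N := by gcongr
    have hhigh : ((N / q + 1 : ℕ) : ℝ) ≤ N * Real.exp (c₂ * √(Real.log N)) := by
      push_cast
      have h4 : ((N / q : ℕ) : ℝ) ≤ (N : ℝ) / q := Nat.cast_div_le
      have h5 : (N : ℝ) / q ≤ N := div_le_self hNpos.le hq1
      have h6 : (1 : ℝ) ≤ ε / 8 * N := hq1.trans h3
      rcases Nat.lt_or_ge q 2 with h7 | h7
      · -- `q = 1`
        have h8 : q = 1 := by omega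
        subst h8
        have h9 : (1 : ℝ) + c₂ * s ≤ Real.exp (c₂ * s) := by
          have := Real.add_one_le_exp (c₂ * s)
          linarith
        rw [← hs]
        have h10 : (1 : ℝ) ≤ N * (c₂ * s) := by
          have h11 : 1 / c₂ ≤ s := hsc₂.trans hss
          rw [div_le_iff₀ hc₂] at h11
          nlinarith
        rw [Nat.div_one]
        nlinarith
      · have h8 : (N : ℝ) / q ≤ N / 2 := by
          apply div_le_div_of_nonneg_left hNpos.le (by norm_num)
          exact_mod_cast h7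
        have h9 : (1 : ℝ) ≤ Real.exp (c₂ * √(Real.log N)) := by
          apply Real.one_le_exp
          positivity
        nlinarith
    have h2 := (hR N hN hNE₂).1 (N / q + 1) hlow hhigh
    have hM0 : (0 : ℝ) < ((N / q + 1 : ℕ) : ℝ) := by positivity
    have h4 : d k (N / q + 1) ≤ (1 + ε / 8) * d k N := by
      have h5 := (abs_le.mp h2).2
      have e : (r k (N / q + 1) : ℝ) / r k N / (((N / q + 1 : ℕ) : ℝ) / N) =
          d k (N / q + 1) / d k N := by
        unfold d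
        field_simp
      rw [e] at h5
      have h6 : d k (N / q + 1) / d k N ≤ 1 + ε / 8 := by linarith
      rwa [div_le_iff₀ (d_pos hk hN)] at h6
    have h5 := qr_le hN hq hk (by linarith) h3 h4
    refine h5.trans ?_
    apply mul_le_mul_of_nonneg_right _ hr.le
    nlinarith
  -- phase one
  obtain ⟨τ₁, hτ₁⟩ : ∃ τ₁ : ℝ, τ₁ = Real.exp (-(6 * s)) := ⟨_, rfl⟩
  obtain ⟨τ₂, hτ₂⟩ : ∃ τ₂ : ℝ, τ₂ = Real.exp (-(a * s)) := ⟨_, rfl⟩
  have hτ₁0 : 0 < τ₁ := by rw [hτ₁]; exact Real.exp_pos _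
  have hτ₂0 : 0 < τ₂ := by rw [hτ₂]; exact Real.exp_pos _
  have hl₁ : Real.log τ₁⁻¹ = 6 * s := by rw [Real.log_inv, hτ₁, Real.log_exp]; ring
  have hl₂ : Real.log τ₂⁻¹ = a * s := by rw [Real.log_inv, hτ₂, Real.log_exp]; ring
  have hτ₁t : τ₁ ≤ t₁ := by
    rw [hτ₁, ← Real.le_log_iff_exp_le ht₁0]
    have h2 := neg_abs_le (Real.log t₁)
    have h3 := hst₁.trans hss
    linarith
  have hτ₂t : τ₂ ≤ t₂ := by
    rw [hτ₂, ← Real.le_log_iff_exp_le ht₂0]
    have h2 := neg_abs_le (Real.log t₂)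
    have h3 := hst₂.trans hss
    rw [div_le_iff₀ ha0] at h3
    linarith
  have hr1 : Real.exp (6 * s) ≤ r k N := by
    refine le_trans ?_ hbeh
    rw [← hexpN, ← Real.exp_add]
    apply Real.exp_le_exp.2
    nlinarith
  have hr2 : Real.exp (a * s) ≤ r k N := by
    refine le_trans ?_ hbeh
    rw [← hexpN, ← Real.exp_add]
    apply Real.exp_le_exp.2
    nlinarith
  have hphase₁ : Cov (fun I => I ⊆ Icc 1 N ∧ APFree k I) (Icc 1 N)
      (Real.exp (1 / 2 * Real.exp (-(c * s)) * r k N)) (4 * Λ * r k N) := by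
    obtain ⟨D, f, hD1, hfp, hfle, hinj, hDs⟩ := hsa s (hsa'.trans hss)
    obtain ⟨J₁, hJ₁, hJ₁'⟩ : ∃ J : ℕ, 4 * s / δ₁ ≤ J ∧ (J : ℝ) ≤ 4 * s / δ₁ + 1 :=
      ⟨⌈4 * s / δ₁⌉₊, Nat.le_ceil _, (Nat.ceil_lt_add_one (by positivity)).le⟩
    have hit := iterate (P := APFree k) (V := Icc 1 N) (m := 4 * Λ * r k N)
      (b := 3 * k * (τ₁ * (6 * s)) * N) (by positivity) hδ₁0 hδ₁1 (by
        intro U hU hUm
        have hUN : (U.card : ℝ) ≤ N := by
          have := card_le_card hU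
          rw [Nat.card_Icc] at this
          exact_mod_cast this
        have hst := hstep₁ N D f hfp hinj hD1 U hU τ₁ hτ₁0 hτ₁t
          (by
            intro i hi
            have := hq₁ (f i) (hfp i hi).one_lt.le (hfle i hi)
            linarith)
          (by
            refine (hlog2.trans hDs).trans (le_of_eq ?_)
            rw [hτ₁, ← Real.exp_nat_mul]
            congr 2
            rw [Nat.cast_sub (by omega)]
            push_cast
            ring)
          (by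
            have h2 : Real.exp (6 * s) ≤ U.card := by
              refine hr1.trans (le_trans ?_ hUm.le)
              nlinarith
            calc (1 : ℝ) = Real.exp (6 * s) * τ₁ := by rw [hτ₁, ← Real.exp_add]; simp
              _ ≤ U.card * τ₁ := by gcongr)
        refine hst.mono (fun I hI => hI) ?_ le_rfl
        apply Real.exp_le_exp.2
        rw [hl₁]
        gcongr) J₁ (Icc 1 N) Subset.rfl
    refine hit.mono (fun I hI => hI) ?_ ?_
    · apply Real.exp_le_exp.2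
      have h2 : (J₁ : ℝ) ≤ (4 / δ₁ + 2) * s := by
        have e1 : 4 * s / δ₁ = 4 / δ₁ * s := by ring
        rw [e1] at hJ₁'
        nlinarith
      have h3 := hsc s (hsc'.trans hss)
      rw [one_mul] at h3
      have h4 : (J₁ : ℝ) * (3 * k * (6 * s)) ≤ 1 / 2 * Real.exp s := by
        calc (J₁ : ℝ) * (3 * k * (6 * s)) ≤ ((4 / δ₁ + 2) * s) * (3 * k * (6 * s)) := by gcongr
          _ = 1 / 2 * (36 * k * (4 / δ₁ + 2) * s ^ 2) := by ring
          _ ≤ _ := by gcongr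
      calc (J₁ : ℝ) * (3 * k * (τ₁ * (6 * s)) * N) = (J₁ * (3 * k * (6 * s))) * (τ₁ * N) := by ring
        _ ≤ (1 / 2 * Real.exp s) * (τ₁ * N) := by gcongr
        _ = 1 / 2 * (Real.exp (-s) * (Real.exp (-(4 * s)) * N)) := by
            rw [hτ₁]
            have e1 : Real.exp s * Real.exp (-(6 * s)) = Real.exp (-s) * Real.exp (-(4 * s)) := by
              rw [← Real.exp_add, ← Real.exp_add]
              congr 1
              ring
            calc (1 / 2 * Real.exp s) * (Real.exp (-(6 * s)) * N) =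
                1 / 2 * (Real.exp s * Real.exp (-(6 * s))) * N := by ring
              _ = _ := by rw [e1]; ring
        _ ≤ 1 / 2 * (Real.exp (-(c * s)) * r k N) := by
            have h5 : Real.exp (-s) ≤ Real.exp (-(c * s)) := by
              apply Real.exp_le_exp.2
              nlinarith
            gcongr
        _ = _ := by ring
    · apply max_le le_rfl
      have h2 := steps hδ₁0 hδ₁1 hJ₁
      rw [Nat.card_Icc]
      have e1 : ((N + 1 - 1 : ℕ) : ℝ) = N := by simp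
      rw [e1]
      calc (1 - δ₁) ^ J₁ * (N : ℝ) ≤ Real.exp (-(4 * s)) * N := by gcongr
        _ ≤ r k N := hbeh
        _ ≤ 4 * Λ * r k N := by nlinarith
  -- phase two
  have hphase₂ : ∀ U ⊆ Icc 1 N, (U.card : ℝ) ≤ 4 * Λ * r k N →
      Cov (fun I => I ⊆ U ∧ APFree k I) U (Real.exp (1 / 2 * Real.exp (-(c * s)) * r k N))
        ((1 + ε) * r k N) := by
    intro V hV hVm
    obtain ⟨D, f, hD1, hfp, hfle, hinj, hDs⟩ := hsb s (hsb'.trans hss)
    have hit := iterate (P := APFree k) (V := V) (m := (1 + ε) * r k N)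
      (b := 3 * k * (τ₂ * (a * s)) * (4 * Λ * r k N)) (by positivity) hδ₂0 hδ₂1 (by
        intro U hU hUm
        have hUN : (U.card : ℝ) ≤ 4 * Λ * r k N := by
          have : (U.card : ℝ) ≤ V.card := by exact_mod_cast card_le_card hU
          exact this.trans hVm
        have hst := hstep₂ N D f hfp hinj hD1 U (hU.trans hV) τ₂ hτ₂0 hτ₂t
          (by
            intro i hi
            have h2 := hq₂ (f i) (hfp i hi).one_lt.le (hfle i hi)
            refine h2.trans ?_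
            have h3 : (1 + ε / 2) * (r k N : ℝ) ≤ (1 - ε / 4) * ((1 + ε) * r k N) := by
              have : (1 + ε / 2) ≤ (1 - ε / 4) * (1 + ε) := by nlinarith
              nlinarith
            refine h3.trans ?_
            apply mul_le_mul_of_nonneg_left hUm.le
            linarith)
          (by
            refine (hlog2.trans hDs).trans ?_
            rw [hτ₂, ← Real.exp_nat_mul]
            apply mul_le_mul_of_nonneg_left _ (by positivity)
            apply Real.exp_le_exp.2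
            have h2 : a * k = c₂ / 2 := by rw [ha]; field_simp
            rw [← h2, Nat.cast_sub (by omega)]
            push_cast
            have : 0 ≤ a * s := by positivity
            nlinarith)
          (by
            have h2 : Real.exp (a * s) ≤ U.card := by
              refine hr2.trans (le_trans ?_ hUm.le)
              nlinarith
            calc (1 : ℝ) = Real.exp (a * s) * τ₂ := by rw [hτ₂, ← Real.exp_add]; simp
              _ ≤ U.card * τ₂ := by gcongr)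
        refine hst.mono (fun I hI => hI) ?_ le_rfl
        apply Real.exp_le_exp.2
        rw [hl₂]
        gcongr) J₂ V Subset.rfl
    refine hit.mono (fun I hI => hI) ?_ ?_
    · apply Real.exp_le_exp.2
      have h3 := hsd s (hsd'.trans hss)
      rw [pow_one] at h3
      calc (J₂ : ℝ) * (3 * k * (τ₂ * (a * s)) * (4 * Λ * r k N)) =
          1 / 2 * (24 * J₂ * k * Λ * a * s) * (τ₂ * r k N) := by ring
        _ ≤ 1 / 2 * Real.exp (a / 2 * s) * (τ₂ * r k N) := by gcongr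
        _ = 1 / 2 * (Real.exp (-(a / 2 * s)) * r k N) := by
            rw [hτ₂]
            have e1 : Real.exp (a / 2 * s) * Real.exp (-(a * s)) = Real.exp (-(a / 2 * s)) := by
              rw [← Real.exp_add]
              congr 1
              ring
            calc 1 / 2 * Real.exp (a / 2 * s) * (Real.exp (-(a * s)) * r k N) =
                1 / 2 * (Real.exp (a / 2 * s) * Real.exp (-(a * s))) * r k N := by ring
              _ = _ := by rw [e1]; ring
        _ ≤ 1 / 2 * (Real.exp (-(c * s)) * r k N) := by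
            have h5 : Real.exp (-(a / 2 * s)) ≤ Real.exp (-(c * s)) := by
              apply Real.exp_le_exp.2
              nlinarith
            gcongr
        _ = _ := by ring
    · apply max_le le_rfl
      have h2 := steps hδ₂0 hδ₂1 hJ₂
      have hΛ0 : 0 < 4 * Λ := by linarith
      rw [Real.exp_neg, Real.exp_log hΛ0] at h2
      calc (1 - δ₂) ^ J₂ * (V.card : ℝ) ≤ (4 * Λ)⁻¹ * (4 * Λ * r k N) := by gcongr
        _ = r k N := by field_simp
        _ ≤ (1 + ε) * r k N := by nlinarith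
  have hcomp := comp (Real.exp_pos _).le hphase₁ hphase₂
  refine hcomp.mono (fun I hI => hI) ?_ le_rfl
  rw [← Real.exp_add, ← hs]
  apply Real.exp_le_exp.2
  apply le_of_eq
  ring

end Pool.Agent.R535.AP
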