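import Pool.Agent.R535.AP.Count

/-!
# The final form
-/

set_option autoImplicit false

open Finset

namespace Pool.Agent.R535.AP

open Pool.Agent.H617R3.AP
open Pool.Agent.Y940.CT (Cov)

open Classical in
theorem strong {k : ℕ} (hk : 3 ≤ k) {ε : ℝ} (h0 : 0 < ε) (h1 : ε ≤ 1) :
    ∃ (c C : ℝ) (E : Set ℕ), 0 < c ∧
      (∀ x : ℕ, 1 ≤ x → ∑ N ∈ (Icc 1 x).filter (fun N => N ∈ E), (1 : ℝ) / N ≤
        ε * Real.log x + C) ∧
      ∀ N : ℕ, 1 ≤ N → N ∉ E →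
        (∃ 𝒞 : Finset (Finset ℕ),
          (𝒞.card : ℝ) ≤ Real.exp (Real.exp (-(c * √(Real.log N))) * r k N) ∧
          (∀ D ∈ 𝒞, D ⊆ Icc 1 N ∧ (D.card : ℝ) ≤ (1 + ε) * r k N) ∧
          ∀ A ∈ freeSets k N, ∃ D ∈ 𝒞, A ⊆ D) ∧
        ((freeSets k N).card : ℝ) ≤ (2 : ℝ) ^ ((1 + ε) * r k N) ∧
        (∀ m : ℕ, (((freeSets k N).filter (fun A => A.card = m)).card : ℝ) ≤
          Real.exp (Real.exp (-(c * √(Real.log N))) * r k N) *
            (⌊(1 + ε) * r k N⌋₊.choose m : ℕ)) ∧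
        (∀ p : ℝ, Real.exp (-(c * √(Real.log N))) ≤ p → p ≤ 1 →
          randProb (Icc 1 N) p
            (fun S => ∃ A ⊆ S, APFree k A ∧ (1 + ε) * (p * r k N) ≤ (A.card : ℝ)) ≤
          Real.exp (-(ε ^ 2 / 36 * (p * r k N)))) := by
  obtain ⟨c₀, C, E₀, hc₀, hE₀, hmain⟩ := main hk (ε := ε / 3) (by positivity) (by linarith)
  obtain ⟨s₁, hs₁⟩ := poly_exp (72 / ε ^ 2) (c₀ / 2) 0 (by positivity)
  obtain ⟨s₂, hs₂⟩ := poly_exp (3 / ε) c₀ 0 hc₀
  obtain ⟨N₀, hN₀⟩ := exists_nat_gt (Real.exp ((max (max s₁ s₂) 0) ^ 2))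
  obtain ⟨F₀, hF₀⟩ : ∃ F₀ : Set ℕ, F₀ = {N | N < N₀} := ⟨_, rfl⟩
  obtain ⟨E, hE⟩ : ∃ E : Set ℕ, E = E₀ ∪ F₀ := ⟨_, rfl⟩
  refine ⟨c₀ / 2, C + N₀, E, by positivity, fun x hx => ?_, fun N hN hNE => ?_⟩
  · have h2 := sum_union_le E₀ F₀ E hE x
    have h4 := sum_small N₀ F₀ hF₀ x
    have h5 := hE₀ x hx
    have h7 : 0 ≤ Real.log x := Real.log_nonneg (by exact_mod_cast hx)
    have h8 : ε / 3 * Real.log x ≤ ε * Real.log x := by nlinarith
    linarith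
  rw [hE, hF₀, Set.mem_union, not_or] at hNE
  obtain ⟨hNE₀, hNN⟩ := hNE
  have hNN₀ : N₀ ≤ N := by simpa using hNN
  have hNR : (1 : ℝ) ≤ N := by exact_mod_cast hN
  have hNpos : (0 : ℝ) < N := by linarith
  obtain ⟨s, hs⟩ : ∃ s : ℝ, s = √(Real.log N) := ⟨_, rfl⟩
  have hss : max (max s₁ s₂) 0 ≤ s := by
    rw [hs]
    apply Real.le_sqrt_of_sq_le
    rw [Real.le_log_iff_exp_le hNpos]
    have : (N₀ : ℝ) ≤ N := by exact_mod_cast hNN₀
    linarith
  have hsn : 0 ≤ s := (le_max_right _ _).trans hss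
  have ha := hs₁ s ((le_max_left _ _).trans ((le_max_left _ _).trans hss))
  have hb := hs₂ s ((le_max_right _ _).trans ((le_max_left _ _).trans hss))
  rw [pow_zero, mul_one] at ha hb
  have hr := r_pos hk hN
  have hcov := hmain N hN hNE₀
  rw [← hs] at hcov ⊢
  have hmono : Real.exp (-(c₀ * s)) ≤ Real.exp (-(c₀ / 2 * s)) := by
    apply Real.exp_le_exp.2
    nlinarith
  have hn : Real.exp (Real.exp (-(c₀ * s)) * r k N) ≤
      Real.exp (Real.exp (-(c₀ / 2 * s)) * r k N) := by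
    apply Real.exp_le_exp.2
    gcongr
  have hγ : (1 + ε / 3) * (r k N : ℝ) ≤ (1 + ε) * r k N := by nlinarith
  -- smallness
  have hc1 : Real.exp (-(c₀ * s)) ≤ ε / 3 := by
    rw [Real.exp_neg, inv_le_comm₀ (Real.exp_pos _) (by positivity)]
    have e1 : (ε / 3)⁻¹ = 3 / ε := by field_simp
    rw [e1]
    exact hb
  have hc2 : Real.exp (-(c₀ * s)) ≤ ε ^ 2 / 72 * Real.exp (-(c₀ / 2 * s)) * 1 := by
    have e1 : Real.exp (-(c₀ * s)) = Real.exp (-(c₀ / 2 * s)) * Real.exp (-(c₀ / 2 * s)) := by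
      rw [← Real.exp_add]
      congr 1
      ring
    have h3 : Real.exp (-(c₀ / 2 * s)) ≤ ε ^ 2 / 72 := by
      rw [Real.exp_neg, inv_le_comm₀ (Real.exp_pos _) (by positivity)]
      have e2 : (ε ^ 2 / 72)⁻¹ = 72 / ε ^ 2 := by field_simp
      rw [e2]
      exact ha
    rw [e1, mul_one]
    exact mul_le_mul_of_nonneg_right h3 (Real.exp_pos _).le
  refine ⟨?_, ?_, ?_, ?_⟩
  · obtain ⟨𝒞, h2, h3, h4⟩ := hcov
    exact ⟨𝒞, h2.trans hn, fun D hD => ⟨(h3 D hD).1, (h3 D hD).2.trans hγ⟩,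
      fun A hA => h4 A (mem_freeSets.1 hA)⟩
  · refine (freeSets_le (Real.exp_pos _).le hcov).trans ?_
    have h2 : Real.exp (Real.exp (-(c₀ * s)) * r k N) ≤ (2 : ℝ) ^ (2 * ε / 3 * r k N) := by
      have e1 : (2 : ℝ) ^ (2 * ε / 3 * (r k N : ℝ)) =
          Real.exp (Real.log 2 * (2 * ε / 3 * r k N)) := by
        rw [Real.exp_mul, Real.exp_log (by norm_num)]
      rw [e1]
      apply Real.exp_le_exp.2
      have h3 := Real.log_two_gt_d9
      calc Real.exp (-(c₀ * s)) * (r k N : ℝ) ≤ ε / 3 * r k N := by gcongr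
        _ = 1 / 2 * (2 * ε / 3 * r k N) := by ring
        _ ≤ Real.log 2 * (2 * ε / 3 * r k N) := by
            apply mul_le_mul_of_nonneg_right _ (by positivity)
            linarith
    calc Real.exp (Real.exp (-(c₀ * s)) * r k N) * (2 : ℝ) ^ ((1 + ε / 3) * (r k N : ℝ))
        ≤ (2 : ℝ) ^ (2 * ε / 3 * (r k N : ℝ)) * (2 : ℝ) ^ ((1 + ε / 3) * (r k N : ℝ)) := by
          gcongr
      _ = (2 : ℝ) ^ ((1 + ε) * (r k N : ℝ)) := by
          rw [← Real.rpow_add (by norm_num)]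
          congr 1
          ring
  · intro m
    refine (freeSets_sized_le (Real.exp_pos _).le hcov m).trans ?_
    have h2 : ((⌊(1 + ε / 3) * (r k N : ℝ)⌋₊.choose m : ℕ) : ℝ) ≤
        ((⌊(1 + ε) * (r k N : ℝ)⌋₊.choose m : ℕ) : ℝ) := by
      exact_mod_cast Nat.choose_le_choose m (Nat.floor_le_floor hγ)
    gcongr
  · intro p hp hp1
    have hp0 : 0 ≤ p := (Real.exp_pos _).le.trans hp
    have h2 := random hp0 hp1 (ε := ε / 3) (R := r k N) (by positivity) (by linarith) hr.le hcov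
    have e1 : (1 + 3 * (ε / 3)) = 1 + ε := by ring
    rw [e1] at h2
    refine h2.trans ?_
    rw [← Real.exp_add]
    apply Real.exp_le_exp.2
    have h3 : Real.exp (-(c₀ * s)) * (r k N : ℝ) ≤ ε ^ 2 / 72 * p * r k N := by
      apply mul_le_mul_of_nonneg_right _ hr.le
      refine hc2.trans ?_
      rw [mul_one]
      apply mul_le_mul_of_nonneg_left hp (by positivity)
    have h4 : 0 ≤ ε ^ 2 * (p * r k N) := by positivity
    nlinarith

open Classical in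
theorem density_zero {k : ℕ} (hk : 3 ≤ k) {ε ε' : ℝ} (h0 : 0 < ε) (h0' : 0 < ε') :
    ∃ C : ℝ, ∀ x : ℕ, 1 ≤ x →
      ∑ N ∈ (Icc 1 x).filter (fun N => (2 : ℝ) ^ ((1 + ε) * r k N) < (freeSets k N).card),
        (1 : ℝ) / N ≤ ε' * Real.log x + C := by
  have hm : 0 < min (min ε ε') 1 := lt_min (lt_min h0 h0') one_pos
  obtain ⟨c, C, E, hc, hE, h⟩ := strong hk hm (min_le_right _ _)
  refine ⟨C, fun x hx => ?_⟩
  refine le_trans (sum_le_sum_of_subset_of_nonneg ?_ fun _ _ _ => by positivity)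
    ((hE x hx).trans ?_)
  · intro N hN
    rw [mem_filter] at hN ⊢
    refine ⟨hN.1, ?_⟩
    by_contra hNE
    have h1 := (h N (mem_Icc.1 hN.1).1 hNE).2.1
    have h2 : (2 : ℝ) ^ ((1 + min (min ε ε') 1) * (r k N : ℝ)) ≤
        (2 : ℝ) ^ ((1 + ε) * (r k N : ℝ)) := by
      apply Real.rpow_le_rpow_of_exponent_le (by norm_num)
      apply mul_le_mul_of_nonneg_right _ (Nat.cast_nonneg _)
      have := (min_le_left (min ε ε') 1).trans (min_le_left _ _)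
      linarith
    linarith [hN.2]
  · have h3 : 0 ≤ Real.log x := Real.log_nonneg (by exact_mod_cast hx)
    have h4 := (min_le_left (min ε ε') 1).trans (min_le_right _ _)
    nlinarith

end Pool.Agent.R535.AP
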